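import Pool.Agent.Helper70.EQ.Goals
import Pool.Agent.Helper51.KN.BD

/-!
# Project EQ (MP_20ee5e_ag), packet EQ-CO (helper62): counting cubes
-/

set_option autoImplicit false

open MeasureTheory Set

namespace Pool.Agent.Helper62.EQ.CO

open Pool.Agent.Helper70.KN Pool.Agent.Helper70.EQ

/-- The set of the lattice points is finite (as in Helper65/KG/Asm.lean). -/
theorem genus_finite {N : ℕ} (V : Finset (Fin N → ℕ)) (hV : Convenient V) :
    {p : Fin N → ℕ | (∀ i, 0 < p i) ∧ (fun i => (p i : ℝ)) ∉ interior (newton V)}.Finite := by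
  obtain ⟨M, hM, hb⟩ := Pool.Agent.Helper51.KN.BD.t N V hV
  obtain ⟨m, hm⟩ := exists_nat_gt (M + 1)
  refine (Set.Finite.pi' (ι := Fin N) (t := fun _ => Set.Iio m) fun _ => Set.finite_Iio m).subset ?_
  intro p hp i
  by_contra hi
  have hi' : m ≤ p i := by simpa using hi
  have hi2 : (m : ℝ) ≤ p i := by exact_mod_cast hi'
  apply hp.2
  rw [mem_interior_iff_mem_nhds, Metric.mem_nhds_iff]
  refine ⟨1, one_pos, fun x hx => ?_⟩
  have hd : ∀ j, |x j - p j| < 1 := fun j => by
    have h1 := dist_le_pi_dist x (fun i => (p i : ℝ)) j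
    rw [Real.dist_eq] at h1
    exact lt_of_le_of_lt h1 hx
  by_contra hn
  have h0 : (0 : Fin N → ℝ) ≤ x := fun j => by
    have h1 := abs_lt.1 (hd j)
    have h2 : (1 : ℝ) ≤ p j := by exact_mod_cast hp.1 j
    show (0 : ℝ) ≤ x j
    linarith
  have h3 := hb x h0 hn i
  have h4 := abs_lt.1 (hd i)
  linarith

theorem t (_hMD : G_MD) : G_CO := by
  classical
  intro N V hV
  have hfin := genus_finite V hV
  have hcard : genus V = hfin.toFinset.card := ncard_eq_toFinset_card _ hfin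
  have hsub : D V Finset.univ ⊆ ⋃ p ∈ hfin.toFinset,
      Set.pi univ (fun k => Ico ((p k : ℝ) - 1) (p k)) := by
    rintro x ⟨hx0, hx⟩
    have hp : ∀ k, ((⌊x k⌋.toNat + 1 : ℕ) : ℝ) = (⌊x k⌋ : ℝ) + 1 := by
      intro k
      have h1 : 0 ≤ ⌊x k⌋ := Int.floor_nonneg.2 (hx0 k)
      have h2 : ((⌊x k⌋.toNat : ℤ) : ℝ) = (⌊x k⌋ : ℝ) := by rw [Int.toNat_of_nonneg h1]
      push_cast at h2 ⊢
      rw [h2]
    refine mem_biUnion (x := fun k => ⌊x k⌋.toNat + 1) ?_ ?_
    · rw [Finite.coe_toFinset]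
      refine ⟨fun k => Nat.succ_pos _, fun h => hx ?_⟩
      have h3 := interior_subset h
      have h4 : (fun i => ((⌊x i⌋.toNat + 1 : ℕ) : ℝ)) = up Finset.univ x := by
        funext i
        rw [hp i]
        simp [up]
      rw [← h4]
      exact h3
    · intro k _
      have h5 : ((⌊x k⌋.toNat + 1 : ℕ) : ℝ) = (⌊x k⌋ : ℝ) + 1 := hp k
      show _ ≤ _ ∧ _ < _
      rw [h5]
      exact ⟨by linarith [Int.floor_le (x k)], Int.lt_floor_add_one (x k)⟩
  have hvol : volume (D V Finset.univ) ≤ (hfin.toFinset.card : ENNReal) := by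
    refine (measure_mono hsub).trans ((measure_biUnion_finset_le _ _).trans ?_)
    have h6 : ∀ p : Fin N → ℕ, volume (Set.pi univ (fun k => Ico ((p k : ℝ) - 1) (p k))) = 1 := by
      intro p
      rw [Real.volume_pi_Ico]
      simp
    simp only [h6]
    simp
  unfold dv
  rw [hcard]
  refine ENNReal.toReal_le_of_le_ofReal (Nat.cast_nonneg _) ?_
  rw [ENNReal.ofReal_natCast]
  exact hvol

end Pool.Agent.Helper62.EQ.CO
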